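import Pool.Agent.Lib.MP_51d96b_an.Final

/-!
# The self-similar profile of the one-phase fractional Stefan problem is not `C¹` up to the
free boundary from the water side, for every `s ∈ [1/2, 1)`

Proof idea.  In the variable `x = ξ₀ - ξ` put `V(x) = U(ξ₀ - x)`.  Testing the profile equation
with functions supported in the water region gives `∫ V L*φ = 0` with
`L*φ = (-Δ)^s φ + (1/(2s)) (φ - (ξ₀ - x) φ')`.
If `H` were `C¹` up to `ξ₀`, then `V` would have a limit at `0⁺`, which a scaling argument shows to
be `0`, and then `V(x) ≤ C x` near `0`.  This is excluded by the test functions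
`φ = G(x^β)` cut off near `0`, with `2s - 2 < β < s - 1` and `G` smooth, convex and vanishing
for small values: `(-Δ)^s x₊^β = c(β) x^(β-2s)` with `c(β) < 0` on that range (an elementary
antiderivative gives `c(s-1) = 0`, and `c` is compared pointwise), so `L*φ ≤ 0`, with strict
inequality away from the free boundary, while the cut-off error is `O(ε^(2+β-2s))`.
For `s = 1/2` one takes `β` close to `-1`, where `c(β) → -∞` beats the drift.
-/

open Pool.Agent.Lib.MP_51d96b_an

namespace Pool.Agent.Results.MP_51d96b_an.NotC1WaterSide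

/-- For every `s ∈ [1/2, 1)`, `L > 0`, `P₁ > 0`, `T > 0`: the self-similar profile `H` of the
one-phase fractional Stefan problem with step datum is not in `C¹(-∞, ξ₀]`. -/
theorem result (s L P₁ T : ℝ) (hs : 1 / 2 ≤ s) (hs1 : s < 1) (_hL : 0 < L) (_hP : 0 < P₁)
    (hT : 0 < T) (H : ℝ → ℝ) (hH : IsStefanProfile s L P₁ T H) (ξ₀ : ℝ)
    (hξ : IsFreeBoundaryPoint L H ξ₀) : ¬ IsC1UpTo H ξ₀ := by
  obtain ⟨hHm, ⟨M, hHb⟩, hw⟩ := hH
  obtain ⟨hξ0, _, hwater, hice⟩ := hξ
  exact not_C1 hHm hHb hs hs1 hξ0.le hwater hice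
    (fun φ hφ hc => profile_eq (by linarith) hs1 hT hHm hHb hw hφ hc)

end Pool.Agent.Results.MP_51d96b_an.NotC1WaterSide
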